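import Pool.Agent.H76.AB.Stm

set_option autoImplicit false

namespace H36.AB

open SimpleGraph H76.AB

/-- distributing at most `|J| a` points over the colours of `J`, at most `a` for each colour -/
theorem exists_dist {q : ℕ} (a : ℕ) (J : Finset (Fin q)) : ∀ Q : Finset ℕ, Q.card ≤ J.card * a →
    (0 < q) → ∃ f : ℕ → Fin q, (∀ p ∈ Q, f p ∈ J) ∧ ∀ j, (Q.filter fun p => f p = j).card ≤ a := by
  classical
  induction J using Finset.induction_on with
  | empty =>
    intro Q hQ hq
    have : Q = ∅ := by
      rw [← Finset.card_eq_zero]; simpa using hQ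
    subst this
    exact ⟨fun _ => ⟨0, hq⟩, by simp, by simp⟩
  | insert j J hj ih =>
    intro Q hQ hq
    rw [Finset.card_insert_of_notMem hj] at hQ
    obtain ⟨Q1, hQ1, hc1⟩ := Finset.exists_subset_card_eq (s := Q) (n := min a Q.card)
      (min_le_right _ _)
    have hc2 : (Q \ Q1).card ≤ J.card * a := by
      rw [Finset.card_sdiff_of_subset hQ1, hc1]
      have : (J.card + 1) * a = J.card * a + a := by ring
      rcases le_total a Q.card with h | h
      · rw [min_eq_left h]; omega
      · rw [min_eq_right h]; omega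
    obtain ⟨f, hf1, hf2⟩ := ih (Q \ Q1) hc2 hq
    refine ⟨fun p => if p ∈ Q1 then j else f p, ?_, ?_⟩
    · intro p hp
      by_cases h : p ∈ Q1
      · simp [h]
      · simp only [if_neg h]
        exact Finset.mem_insert_of_mem (hf1 p (Finset.mem_sdiff.2 ⟨hp, h⟩))
    · intro i
      by_cases hij : i = j
      · subst hij
        have hsub : (Q.filter fun p => (if p ∈ Q1 then i else f p) = i) ⊆ Q1 := by
          intro p hp
          rw [Finset.mem_filter] at hp
          by_contra h
          rw [if_neg h] at hp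
          have := hf1 p (Finset.mem_sdiff.2 ⟨hp.1, h⟩)
          rw [hp.2] at this
          exact hj this
        exact (Finset.card_le_card hsub).trans (by rw [hc1]; exact min_le_left _ _)
      · have hsub : (Q.filter fun p => (if p ∈ Q1 then j else f p) = i) ⊆
            ((Q \ Q1).filter fun p => f p = i) := by
          intro p hp
          rw [Finset.mem_filter] at hp
          by_cases h : p ∈ Q1
          · rw [if_pos h] at hp
            exact absurd hp.2.symm hij
          · rw [if_neg h] at hp
            exact Finset.mem_filter.2 ⟨Finset.mem_sdiff.2 ⟨hp.1, h⟩, hp.2⟩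
        exact (Finset.card_le_card hsub).trans (hf2 i)

/-- colouring of the positions of one vertex: at most one position `p` is forbidden for `z` -/
theorem exists_colour {q : ℕ} (a : ℕ) (z : Fin q) (hq : 2 ≤ q) (ha : 1 ≤ a) (F : ℕ → Prop)
    (hF : ∀ p p', p < q * a → p' < q * a → F p → F p' → p = p') :
    ∃ f : ℕ → Fin q, (∀ j, {p | p < q * a ∧ f p = j}.ncard ≤ a) ∧
      ∀ p, p < q * a → f p = z → ¬ F p := by
  classical
  let U := Finset.range (q * a)
  let G := U.filter fun p => ¬ F p
  have hbad : (U.filter fun p => F p).card ≤ 1 := by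
    rw [Finset.card_le_one]
    intro p hp p' hp'
    rw [Finset.mem_filter, Finset.mem_range] at hp hp'
    exact hF p p' hp.1 hp'.1 hp.2 hp'.2
  have hG : a ≤ G.card := by
    have h1 : (U.filter fun p => F p).card + G.card = U.card :=
      Finset.card_filter_add_card_filter_not _
    have h2 : U.card = q * a := Finset.card_range _
    have h3 : 2 * a ≤ q * a := Nat.mul_le_mul_right a hq
    omega
  obtain ⟨P0, hP0, hc0⟩ := Finset.exists_subset_card_eq hG
  have hP0U : P0 ⊆ U := hP0.trans (Finset.filter_subset _ _)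
  have hcJ : (Finset.univ.erase z).card = q - 1 := by
    rw [Finset.card_erase_of_mem (Finset.mem_univ z), Finset.card_univ, Fintype.card_fin]
  obtain ⟨f, hf1, hf2⟩ := exists_dist a (Finset.univ.erase z) (U \ P0) (by
    rw [Finset.card_sdiff_of_subset hP0U, hc0, hcJ, Finset.card_range, Nat.sub_mul, one_mul])
    (by omega)
  refine ⟨fun p => if p ∈ P0 then z else f p, ?_, ?_⟩
  · intro j
    have hset : {p | p < q * a ∧ (if p ∈ P0 then z else f p) = j} =
        ((U.filter fun p => (if p ∈ P0 then z else f p) = j : Finset ℕ) : Set ℕ) := by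
      ext p
      simp [U]
    show {p | p < q * a ∧ (if p ∈ P0 then z else f p) = j}.ncard ≤ a
    rw [hset, Set.ncard_coe_finset]
    by_cases hj : j = z
    · subst hj
      have hsub : (U.filter fun p => (if p ∈ P0 then j else f p) = j) ⊆ P0 := by
        intro p hp
        rw [Finset.mem_filter] at hp
        by_contra h
        rw [if_neg h] at hp
        have := hf1 p (Finset.mem_sdiff.2 ⟨hp.1, h⟩)
        rw [hp.2] at this
        exact absurd this (by simp)
      exact (Finset.card_le_card hsub).trans hc0.le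
    · have hsub : (U.filter fun p => (if p ∈ P0 then z else f p) = j) ⊆
          ((U \ P0).filter fun p => f p = j) := by
        intro p hp
        rw [Finset.mem_filter] at hp
        by_cases h : p ∈ P0
        · rw [if_pos h] at hp
          exact absurd hp.2.symm hj
        · rw [if_neg h] at hp
          exact Finset.mem_filter.2 ⟨Finset.mem_sdiff.2 ⟨hp.1, h⟩, hp.2⟩
      exact (Finset.card_le_card hsub).trans (hf2 j)
  · intro p hp hpz
    by_cases h : p ∈ P0
    · exact (Finset.mem_filter.1 (hP0 h)).2
    · have hpz' : f p = z := by simpa only [if_neg h] using hpz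
      have := hf1 p (Finset.mem_sdiff.2 ⟨Finset.mem_range.2 hp, h⟩)
      rw [hpz'] at this
      exact absurd this (by simp)

section anc

variable (R : Raw) (m : ℕ) (w : ℕ → ℕ)

open Classical in
/-- ancestors of `B` in at most `n` steps -/
noncomputable def AF [DecidableEq R.V] (B : Finset R.V) : ℕ → Finset R.V
  | 0 => B
  | n + 1 => AF B n ∪ (AF B n).biUnion fun x =>
      if R.lev x < m then (Finset.range (w (R.lev x))).image (R.par x) else ∅

theorem mem_AF_succ [DecidableEq R.V] (B : Finset R.V) (n : ℕ) (u : R.V) :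
    u ∈ AF R m w B (n + 1) ↔ u ∈ AF R m w B n ∨ ∃ x ∈ AF R m w B n, ∃ p, R.Up m w x p u := by
  rw [AF, Finset.mem_union, Finset.mem_biUnion]
  refine or_congr Iff.rfl (exists_congr fun x => and_congr Iff.rfl ?_)
  by_cases h : R.lev x < m
  · rw [if_pos h, Finset.mem_image]
    constructor
    · rintro ⟨p, hp, e⟩
      exact ⟨p, h, Finset.mem_range.1 hp, e⟩
    · rintro ⟨p, _, hp, e⟩
      exact ⟨p, Finset.mem_range.2 hp, e⟩
  · rw [if_neg h]
    constructor
    · intro h'; simp at h'
    · rintro ⟨p, h', _⟩; exact absurd h' h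

theorem AF_mono [DecidableEq R.V] (B : Finset R.V) {i j : ℕ} (h : i ≤ j) :
    AF R m w B i ⊆ AF R m w B j := by
  induction j, h using Nat.le_induction with
  | base => exact Finset.Subset.refl _
  | succ j _ ih =>
    intro u hu
    exact (mem_AF_succ R m w B j u).2 (Or.inl (ih hu))

theorem AF_card [DecidableEq R.V] (B : Finset R.V) (W : ℕ) (hW : ∀ i, i < m → w i ≤ W) (n : ℕ) :
    (AF R m w B n).card ≤ B.card * (1 + W) ^ n := by
  induction n with
  | zero => simp [AF]
  | succ n ih =>
    rw [AF]
    refine (Finset.card_union_le _ _).trans ?_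
    have h1 : ((AF R m w B n).biUnion fun x =>
        if R.lev x < m then (Finset.range (w (R.lev x))).image (R.par x) else ∅).card
        ≤ (AF R m w B n).card * W := by
      refine Finset.card_biUnion_le_card_mul _ _ _ fun x _ => ?_
      by_cases h : R.lev x < m
      · rw [if_pos h]
        exact Finset.card_image_le.trans (by rw [Finset.card_range]; exact hW _ h)
      · rw [if_neg h]; simp
    have h2 : B.card * (1 + W) ^ (n + 1) = B.card * (1 + W) ^ n + B.card * (1 + W) ^ n * W := by
      ring
    rw [h2]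
    exact Nat.add_le_add ih (h1.trans (Nat.mul_le_mul_right W ih))

theorem AF_lev [DecidableEq R.V] (hlev : ∀ x p u, R.Up m w x p u → R.lev u = R.lev x + 1)
    (B : Finset R.V) (n : ℕ) : ∀ u ∈ AF R m w B n, ∃ j ≤ n, u ∈ AF R m w B j ∧ j ≤ R.lev u := by
  induction n with
  | zero =>
    intro u hu
    exact ⟨0, le_rfl, hu, Nat.zero_le _⟩
  | succ n ih =>
    intro u hu
    rcases (mem_AF_succ R m w B n u).1 hu with h | ⟨x, hx, p, hp⟩
    · obtain ⟨j, hj, h1, h2⟩ := ih u h
      exact ⟨j, by omega, h1, h2⟩
    · obtain ⟨j, hj, h1, h2⟩ := ih x hx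
      refine ⟨j + 1, by omega, (mem_AF_succ R m w B j u).2 (Or.inr ⟨x, h1, p, hp⟩), ?_⟩
      rw [hlev x p u hp]; omega

theorem AF_closed [DecidableEq R.V] (hlev : ∀ x p u, R.Up m w x p u → R.lev u = R.lev x + 1)
    (B : Finset R.V) (x : R.V) (p : ℕ) (u : R.V) (hx : x ∈ AF R m w B m) (hp : R.Up m w x p u) :
    u ∈ AF R m w B m := by
  obtain ⟨j, hj, h1, h2⟩ := AF_lev R m w hlev B m x hx
  have h3 : R.lev x < m := hp.1
  exact AF_mono R m w B (show j + 1 ≤ m by omega)
    ((mem_AF_succ R m w B j u).2 (Or.inr ⟨x, h1, p, hp⟩))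

end anc

/-- `B` and its ancestors in the colour `z` -/
inductive InC {q : ℕ} (R : Raw) (m : ℕ) (w : ℕ → ℕ) (B : Set R.V) (col : R.V → ℕ → Fin q)
    (z : Fin q) : R.V → Prop
  | base (x : R.V) (h : x ∈ B) : InC R m w B col z x
  | step (x : R.V) (p : ℕ) (u : R.V) (h : InC R m w B col z x) (hp : R.Up m w x p u)
      (hc : col x p = z) : InC R m w B col z u

theorem t_COL (hORI : S_ORI) : S_COL := by
  classical
  intro q s k N hq hs
  let m := s.length
  let w : ℕ → ℕ := fun i => q * s.getD i 0
  let W := ∑ i ∈ Finset.range m, w i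
  have hW : ∀ i, i < m → w i ≤ W := fun i hi =>
    Finset.single_le_sum (f := w) (fun _ _ => Nat.zero_le _) (Finset.mem_range.2 hi)
  refine ⟨k * (1 + W) ^ m * (1 + N), ?_⟩
  intro g R hg hS z B hB
  have := hS.fin
  let _ := Fintype.ofFinite R.V
  have hlev : ∀ x p u, R.Up m w x p u → R.lev u = R.lev x + 1 := by
    rintro x p u ⟨h1, h2, rfl⟩
    unfold Raw.lev
    rw [hS.hpar x p h1 h2]
    simp
  have hpos : ∀ x p p' u, R.Up m w x p u → R.Up m w x p' u → p = p' := by
    rintro x p p' u ⟨h1, h2, h3⟩ ⟨_, h2', h3'⟩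
    have e1 := hS.hpar x p h1 h2
    have e2 := hS.hpar x p' h1 h2'
    rw [h3] at e1
    rw [h3', e1] at e2
    exact (List.cons.inj e2).1
  let A := AF R m w B.toFinset m
  have hBA : ∀ x ∈ B, x ∈ A := fun x hx =>
    AF_mono R m w B.toFinset (Nat.zero_le m) (by
      show x ∈ B.toFinset
      simpa using hx)
  have hAcl : ∀ x p u, x ∈ A → R.Up m w x p u → u ∈ A := fun x p u hx hp =>
    AF_closed R m w hlev B.toFinset x p u hx hp
  have hAc : A.card ≤ k * (1 + W) ^ m := by
    refine (AF_card R m w B.toFinset W hW m).trans (Nat.mul_le_mul_right _ ?_)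
    rw [← Set.ncard_eq_toFinset_card']
    exact hB
  -- children
  let ch : R.V → Finset R.V := fun u => Finset.univ.filter fun x => ∃ p, R.Up m w x p u
  have hch : ∀ u, (ch u).card ≤ N := by
    intro u
    by_cases h : ∃ x0 p0, R.Up m w x0 p0 u
    · obtain ⟨x0, p0, h0⟩ := h
      have e0 : R.node u = p0 :: R.node x0 := by
        have := hS.hpar x0 p0 h0.1 h0.2.1
        rwa [h0.2.2] at this
      have hN := hS.child u p0 (R.node x0) e0
      rw [← hN, ← Set.ncard_coe_finset]
      refine Set.ncard_le_ncard ?_ (Set.toFinite _)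
      intro x hx
      rw [Finset.mem_coe, Finset.mem_filter] at hx
      obtain ⟨-, p, hp⟩ := hx
      have e1 : R.node u = p :: R.node x := by
        have := hS.hpar x p hp.1 hp.2.1
        rwa [hp.2.2] at this
      rw [e0] at e1
      obtain ⟨e2, e3⟩ := List.cons.inj e1
      exact ⟨e3.symm, by rw [e2]; exact hp.2.2⟩
    · have : ch u = ∅ := by
        rw [Finset.filter_eq_empty_iff]
        intro x _ hx
        exact h ⟨x, hx⟩
      rw [this]; simp
  let A2 : Finset R.V := A ∪ A.biUnion ch
  have hA2 : A2.card ≤ g := by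
    refine (Finset.card_union_le _ _).trans ?_
    have h1 := Finset.card_biUnion_le_card_mul A ch N fun u _ => hch u
    have h2 : A.card + A.card * N ≤ k * (1 + W) ^ m * (1 + N) := by
      have : A.card + A.card * N = A.card * (1 + N) := by ring
      rw [this]
      exact Nat.mul_le_mul_right _ hAc
    omega
  obtain ⟨ρ, hρ⟩ := hORI R.V (R.H m w) A2 g hS.forest hA2
  -- choice of the colours
  let D : R.V → Prop := fun x => ∃ p p' u u', p ≠ p' ∧ R.Up m w x p u ∧ R.Up m w x p' u' ∧
    u ∈ A ∧ u' ∈ A
  let F : R.V → ℕ → Prop := fun x p =>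
    if x ∈ A ∨ D x then R.par x p = ρ x else R.par x p ∈ A
  have hex : ∀ x : R.V, ∃ f : ℕ → Fin q, R.lev x < m →
      (∀ j, {p | p < q * s.getD (R.lev x) 0 ∧ f p = j}.ncard ≤ s.getD (R.lev x) 0) ∧
      ∀ p, p < q * s.getD (R.lev x) 0 → f p = z → ¬ F x p := by
    intro x
    by_cases hx : R.lev x < m
    · have ha : 1 ≤ s.getD (R.lev x) 0 := by
        have hx' : R.lev x < s.length := hx
        rw [List.getD_eq_getElem _ _ hx']
        exact hs _ (List.getElem_mem hx')
      obtain ⟨f, h1, h2⟩ := exists_colour (s.getD (R.lev x) 0) z hq ha (F x) (by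
        intro p p' hp hp' hFp hFp'
        by_cases hc : x ∈ A ∨ D x
        · have e1 : R.par x p = ρ x := by simpa only [F, if_pos hc] using hFp
          have e2 : R.par x p' = ρ x := by simpa only [F, if_pos hc] using hFp'
          exact hpos x p p' (ρ x) ⟨hx, hp, e1⟩ ⟨hx, hp', e2⟩
        · have e1 : R.par x p ∈ A := by simpa only [F, if_neg hc] using hFp
          have e2 : R.par x p' ∈ A := by simpa only [F, if_neg hc] using hFp'
          by_contra hne
          exact hc (Or.inr ⟨p, p', _, _, hne, ⟨hx, hp, rfl⟩, ⟨hx, hp', rfl⟩, e1, e2⟩))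
      exact ⟨f, fun _ => ⟨h1, h2⟩⟩
    · exact ⟨fun _ => z, fun h => absurd h hx⟩
  choose col hcol using hex
  have hCA : ∀ u, InC R m w B col z u → u ∈ A := by
    intro u hu
    induction hu with
    | base x h => exact hBA x h
    | step x p u h hp hc ih => exact hAcl x p u ih hp
  refine ⟨col, {x | InC R m w B col z x}, ?_, ?_, ?_, ?_⟩
  · intro x hx j
    exact (hcol x hx).1 j
  · intro x hx
    exact InC.base x hx
  · intro x hx p u hp hc
    exact InC.step x p u hx hp hc
  · intro u hu x y p p' hp hp' hc hc'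
    have huA : u ∈ A := hCA u hu
    have key : ∀ x p, R.Up m w x p u → col x p = z → ρ u = x := by
      intro x p hp hc
      have h1 := (hcol x hp.1).2 p hp.2.1 hc
      have hcase : x ∈ A ∨ D x := by
        by_contra hcon
        apply h1
        simp only [F, if_neg hcon]
        rw [hp.2.2]; exact huA
      have h2 : R.par x p ≠ ρ x := by
        intro h
        apply h1
        simp only [F, if_pos hcase]
        exact h
      rw [hp.2.2] at h2
      have hxA2 : x ∈ A2 := Finset.mem_union_right _ (Finset.mem_biUnion.2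
        ⟨u, huA, Finset.mem_filter.2 ⟨Finset.mem_univ _, p, hp⟩⟩)
      have huA2 : u ∈ A2 := Finset.mem_union_left _ huA
      have hadj : (R.H m w).Adj x u := by
        refine ⟨?_, Or.inl ⟨p, hp⟩⟩
        intro h
        have := hlev x p u hp
        rw [← h] at this
        omega
      rcases hρ x hxA2 u huA2 hadj with h | h
      · exact absurd h.symm h2
      · exact h
    rw [← key x p hp hc, ← key y p' hp' hc']

end H36.AB
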