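import Pool.Agent.H76.AB.Stm

set_option autoImplicit false

namespace H36.AB

open SimpleGraph H76.AB

theorem ori_aux (V : Type) (H : SimpleGraph V) (g : ℕ) (hH : LocF H g) (n : ℕ) :
    ∀ S : Finset V, S.card = n → n ≤ g →
    ∃ ρ : V → V, ∀ x ∈ S, ∀ y ∈ S, H.Adj x y → ρ x = y ∨ ρ y = x := by
  classical
  induction n with
  | zero =>
    intro S hS _
    rw [Finset.card_eq_zero] at hS
    subst hS
    exact ⟨id, by simp⟩
  | succ n ih =>
    intro S hS hg
    have hne : S.Nonempty := by
      rw [← Finset.card_pos]; omega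
    obtain ⟨x, hx, hu⟩ := hH S hne (by omega)
    obtain ⟨ρ, hρ⟩ := ih (S.erase x) (by rw [Finset.card_erase_of_mem hx]; omega) (by omega)
    by_cases hy : ∃ y ∈ S, H.Adj x y
    · obtain ⟨y, hyS, hxy⟩ := hy
      have hyx : y ≠ x := hxy.ne'
      refine ⟨fun a => if a = x then y else ρ a, ?_⟩
      intro a ha b hb hab
      by_cases hax : a = x
      · subst hax
        left
        simp only [if_pos]
        exact hu y hyS b hb hxy hab
      · by_cases hbx : b = x
        · subst hbx
          right
          simp only [if_pos]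
          exact hu y hyS a ha hxy hab.symm
        · have h := hρ a (Finset.mem_erase.2 ⟨hax, ha⟩) b (Finset.mem_erase.2 ⟨hbx, hb⟩) hab
          simp only [if_neg hax, if_neg hbx]
          exact h
    · refine ⟨ρ, ?_⟩
      intro a ha b hb hab
      have hax : a ≠ x := by
        rintro rfl
        exact hy ⟨b, hb, hab⟩
      have hbx : b ≠ x := by
        rintro rfl
        exact hy ⟨a, ha, hab.symm⟩
      exact hρ a (Finset.mem_erase.2 ⟨hax, ha⟩) b (Finset.mem_erase.2 ⟨hbx, hb⟩) hab

theorem t_ORI : S_ORI := by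
  intro V H S g hH hS
  exact ori_aux V H g hH S.card S rfl hS

end H36.AB
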